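import Pool.Agent.Helper64.RFn.GoalsV

/-!
PROJECT RFn, packet VEQn: pointwise estimates in the last stage.
-/

open MeasureTheory Set Matrix

open scoped RealInnerProductSpace

namespace Pool.Agent.Helper20.RFn

open Pool.Agent.Helper47.RFn Pool.Agent.Helper73.RFn Pool.Agent.Helper64.RFn

/-- two sided Gronwall inequality with the weight `z ^ (σ/2) / (T - t)`, `z = 2 (T - t)/τ`. -/
lemma ode {T τ K σ : ℝ} (hτ : 0 < τ) (hl : 2 * (T - τ) ≤ τ) (hσ : 0 < σ) (hK : 0 ≤ K)
    (φ φ' : ℝ → ℝ) (h0 : ∀ t, τ ≤ t → t < T → 0 ≤ φ t)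
    (hd : ∀ t, τ ≤ t → t < T → HasDerivAt φ (φ' t) t)
    (hb : ∀ t, τ ≤ t → t < T → |φ' t| ≤ K * (2 * (T - t) / τ) ^ (σ / 2) / (T - t) * φ t) :
    ∀ t, τ ≤ t → t < T →
      φ t ≤ Real.exp (2 * K / σ) * φ τ ∧ φ τ ≤ Real.exp (2 * K / σ) * φ t := by
  intro t ht1 ht2
  set Z : ℝ → ℝ := fun s => 2 * K / σ * (2 * (T - s) / τ) ^ (σ / 2) with hZ
  have hZd : ∀ s, s < T →
      HasDerivAt Z (-(K * (2 * (T - s) / τ) ^ (σ / 2) / (T - s))) s := by
    intro s hs
    have hz : 0 < 2 * (T - s) / τ := by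
      have : 0 < T - s := by linarith
      positivity
    have h1 : HasDerivAt (fun s => 2 * (T - s) / τ) (2 * (0 - 1) / τ) s := by
      exact (((hasDerivAt_const s T).sub (hasDerivAt_id s)).const_mul 2).div_const τ
    have h2 := (h1.rpow_const (p := σ / 2) (Or.inl hz.ne')).const_mul (2 * K / σ)
    refine h2.congr_deriv ?_
    rw [Real.rpow_sub_one hz.ne']
    have : T - s ≠ 0 := by linarith
    field_simp
    ring
  have hZ0 : ∀ s, s < T → 0 ≤ Z s := by
    intro s hs
    have hz : 0 < 2 * (T - s) / τ := by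
      have : 0 < T - s := by linarith
      positivity
    have := Real.rpow_nonneg hz.le (σ / 2)
    simp only [hZ]
    positivity
  have hZ1 : Z τ ≤ 2 * K / σ := by
    have hz : 0 ≤ 2 * (T - τ) / τ := by
      have : 0 < T - τ := by linarith
      positivity
    have hz1 : 2 * (T - τ) / τ ≤ 1 := by
      rw [div_le_one hτ]; exact hl
    have := Real.rpow_le_one hz hz1 (by positivity : (0:ℝ) ≤ σ / 2)
    have h3 : 0 ≤ 2 * K / σ := by positivity
    simp only [hZ]
    nlinarith
  have hφτ : 0 ≤ φ τ := h0 τ le_rfl (by linarith)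
  have hφt : 0 ≤ φ t := h0 t ht1 ht2
  constructor
  · have hanti : AntitoneOn (fun s => φ s * Real.exp (Z s)) (Icc τ t) := by
      have hdd : ∀ s ∈ Icc τ t, HasDerivAt (fun s => φ s * Real.exp (Z s))
          (φ' s * Real.exp (Z s)
            + φ s * (Real.exp (Z s) * -(K * (2 * (T - s) / τ) ^ (σ / 2) / (T - s)))) s := by
        intro s hs
        exact (hd s hs.1 (by linarith [hs.2])).mul ((hZd s (by linarith [hs.2])).exp)
      apply antitoneOn_of_deriv_nonpos (convex_Icc τ t)
      · intro s hs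
        exact (hdd s hs).continuousAt.continuousWithinAt
      · intro s hs
        rw [interior_Icc] at hs
        exact (hdd s ⟨hs.1.le, hs.2.le⟩).differentiableAt.differentiableWithinAt
      · intro s hs
        rw [interior_Icc] at hs
        rw [(hdd s ⟨hs.1.le, hs.2.le⟩).deriv]
        have h4 := (abs_le.1 (hb s hs.1.le (by linarith [hs.2]))).2
        have h5 := Real.exp_pos (Z s)
        nlinarith
    have h6 := hanti (left_mem_Icc.2 ht1) (right_mem_Icc.2 ht1) ht1
    simp only at h6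
    have h7 : φ t * 1 ≤ φ t * Real.exp (Z t) :=
      mul_le_mul_of_nonneg_left (Real.one_le_exp (hZ0 t ht2)) hφt
    have h8 : φ τ * Real.exp (Z τ) ≤ φ τ * Real.exp (2 * K / σ) :=
      mul_le_mul_of_nonneg_left (Real.exp_le_exp.2 hZ1) hφτ
    nlinarith
  · have hmono : MonotoneOn (fun s => φ s * Real.exp (-Z s)) (Icc τ t) := by
      have hdd : ∀ s ∈ Icc τ t, HasDerivAt (fun s => φ s * Real.exp (-Z s))
          (φ' s * Real.exp (-Z s)
            + φ s * (Real.exp (-Z s) * -(-(K * (2 * (T - s) / τ) ^ (σ / 2) / (T - s))))) s := by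
        intro s hs
        exact (hd s hs.1 (by linarith [hs.2])).mul ((hZd s (by linarith [hs.2])).neg.exp)
      apply monotoneOn_of_deriv_nonneg (convex_Icc τ t)
      · intro s hs
        exact (hdd s hs).continuousAt.continuousWithinAt
      · intro s hs
        rw [interior_Icc] at hs
        exact (hdd s ⟨hs.1.le, hs.2.le⟩).differentiableAt.differentiableWithinAt
      · intro s hs
        rw [interior_Icc] at hs
        rw [(hdd s ⟨hs.1.le, hs.2.le⟩).deriv]
        have h4 := (abs_le.1 (hb s hs.1.le (by linarith [hs.2]))).1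
        have h5 := Real.exp_pos (-Z s)
        nlinarith
    have h6 := hmono (left_mem_Icc.2 ht1) (right_mem_Icc.2 ht1) ht1
    simp only at h6
    have h7 : φ t * Real.exp (-Z t) ≤ φ t * 1 :=
      mul_le_mul_of_nonneg_left (by
        rw [← Real.exp_zero]; exact Real.exp_le_exp.2 (by linarith [hZ0 t ht2])) hφt
    have h8 : φ τ * Real.exp (-(2 * K / σ)) ≤ φ τ * Real.exp (-Z τ) :=
      mul_le_mul_of_nonneg_left (Real.exp_le_exp.2 (by linarith)) hφτ
    have h9 : φ τ * Real.exp (-(2 * K / σ)) ≤ φ t := by linarith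
    have h10 : φ τ = Real.exp (2 * K / σ) * (φ τ * Real.exp (-(2 * K / σ))) := by
      rw [mul_left_comm, ← Real.exp_add, add_neg_cancel, Real.exp_zero, mul_one]
    rw [h10]
    exact mul_le_mul_of_nonneg_left h9 (Real.exp_pos _).le

/-- derivative of `sqrt (T - t) ^ n`. -/
lemma dsq {T : ℝ} (n : ℕ) (hn : 1 ≤ n) {t : ℝ} (ht : t < T) :
    HasDerivAt (fun s => Real.sqrt (T - s) ^ n)
      (-((n : ℝ) / (2 * (T - t))) * Real.sqrt (T - t) ^ n) t := by
  have hp : 0 < T - t := by linarith
  have h1 : HasDerivAt (fun s => T - s) (0 - 1) t :=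
    (hasDerivAt_const t T).sub (hasDerivAt_id t)
  have h2 := (h1.sqrt hp.ne').pow n
  refine HasDerivAt.congr_deriv (f' := _) h2 ?_
  obtain ⟨m, rfl⟩ : ∃ m, n = m + 1 := ⟨n - 1, by omega⟩
  have hs : Real.sqrt (T - t) ≠ 0 := (Real.sqrt_pos.2 hp).ne'
  have hss : (T - t) = Real.sqrt (T - t) ^ 2 := (Real.sq_sqrt hp.le).symm
  have e : (-(((m + 1 : ℕ) : ℝ) / (2 * (T - t))) * Real.sqrt (T - t) ^ (m + 1))
      = -(((m + 1 : ℕ) : ℝ) / (2 * Real.sqrt (T - t) ^ 2)) * Real.sqrt (T - t) ^ (m + 1) := by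
    rw [← hss]
  rw [e]
  simp only [Nat.add_sub_cancel]
  field_simp
  ring

/-- algebra of the frame at one point: `w_a = ∑_i θ_ia v_i`. -/
lemma ptalg {n : ℕ} (hn : 4 ≤ n) (A θ : MF n) (x : EE n) (hx : x ≠ 0) (h1 : A x * θ x = 1)
    (hnA : ∀ a, ∑ i, A x a i * x i = ∑ i, θ x i a * x i) (v : Fin (n + 1) → ℝ) (hv : Tan x v)
    (w : Fin (n + 1) → ℝ) (hw : w = fun a => ∑ i, θ x i a * v i) :
    ∑ a, ∑ b, w a * w b * Rcf A θ b a x
      = lamf A θ x * ∑ a, w a ^ 2 + ∑ a, ∑ b, ∑ d, w a * w b * Ef A θ b d a d x := by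
  have h2 : θ x * A x = 1 := mul_eq_one_comm.1 h1
  have h2' : ∀ i j, ∑ a, θ x i a * A x a j = if i = j then 1 else 0 := by
    intro i j
    have := congrFun (congrFun h2 i) j
    rw [Matrix.mul_apply, Matrix.one_apply] at this
    exact this
  have hx0 : ‖x‖ ≠ 0 := norm_ne_zero_iff.2 hx
  have hnn : ∑ i, nn i x * nn i x = 1 := by
    have h3 : ∑ i, x i * x i = ‖x‖ * ‖x‖ := by
      rw [← sq, EuclideanSpace.norm_sq_eq]
      refine Finset.sum_congr rfl fun i _ => ?_
      rw [Real.norm_eq_abs, sq_abs, sq]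
    simp only [nn]
    have h4 : ∀ i, x i / ‖x‖ * (x i / ‖x‖) = x i * x i * (‖x‖ * ‖x‖)⁻¹ := by
      intro i; field_simp
    simp only [h4]
    rw [← Finset.sum_mul, h3]
    exact mul_inv_cancel₀ (mul_ne_zero hx0 hx0)
  have hnA' : ∀ a, nfc A a x = ∑ i, θ x i a * nn i x := by
    intro a
    simp only [nfc, nn]
    have h4 : ∀ (f : Fin (n + 1) → ℝ) , ∑ i, f i * (x i / ‖x‖) = (∑ i, f i * x i) * ‖x‖⁻¹ := by
      intro f
      rw [Finset.sum_mul]
      refine Finset.sum_congr rfl fun i _ => ?_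
      field_simp
    rw [h4 (fun i => A x a i), h4 (fun i => θ x i a), hnA a]
  have hN : ∑ a, nfc A a x * nfc A a x = 1 := by
    have h5 : ∀ a, nfc A a x * nfc A a x = ∑ i, ∑ j, nn i x * nn j x * (θ x j a * A x a i) := by
      intro a
      have h50 : nfc A a x * nfc A a x = (∑ i, A x a i * nn i x) * ∑ j, θ x j a * nn j x := by
        rw [← hnA' a]
        rfl
      rw [h50, Finset.sum_mul_sum]
      refine Finset.sum_congr rfl fun i _ => Finset.sum_congr rfl fun j _ => ?_
      ring
    simp only [h5]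
    rw [Finset.sum_comm]
    have h6 : ∀ i, ∑ a, ∑ j, nn i x * nn j x * (θ x j a * A x a i) = nn i x * nn i x := by
      intro i
      rw [Finset.sum_comm]
      have h7 : ∀ j, ∑ a, nn i x * nn j x * (θ x j a * A x a i)
          = if j = i then nn i x * nn j x else 0 := by
        intro j
        rw [← Finset.mul_sum, h2' j i]
        split_ifs <;> simp
      simp only [h7]
      simp
    simp only [h6]
    exact hnn
  have hNw : ∑ a, nfc A a x * w a = 0 := by
    have h5 : ∀ a, nfc A a x * w a = ∑ i, ∑ j, nn i x * v j * (θ x j a * A x a i) := by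
      intro a
      have h50 : nfc A a x * w a = (∑ i, A x a i * nn i x) * ∑ j, θ x j a * v j := by
        rw [hw]
        rfl
      rw [h50, Finset.sum_mul_sum]
      refine Finset.sum_congr rfl fun i _ => Finset.sum_congr rfl fun j _ => ?_
      ring
    simp only [h5]
    rw [Finset.sum_comm]
    have h6 : ∀ i, ∑ a, ∑ j, nn i x * v j * (θ x j a * A x a i) = nn i x * v i := by
      intro i
      rw [Finset.sum_comm]
      have h7 : ∀ j, ∑ a, nn i x * v j * (θ x j a * A x a i)
          = if j = i then nn i x * v j else 0 := by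
        intro j
        rw [← Finset.mul_sum, h2' j i]
        split_ifs <;> simp
      simp only [h7]
      simp
    simp only [h6]
    simp only [nn]
    have h8 : ∀ i, x i / ‖x‖ * v i = (v i * x i) * ‖x‖⁻¹ := by
      intro i; field_simp
    simp only [h8]
    rw [← Finset.sum_mul]
    have h9 : ∑ i, v i * x i = 0 := hv
    rw [h9, zero_mul]
  have hn1 : (n : ℝ) - 1 ≠ 0 := by
    have : (4 : ℝ) ≤ n := by exact_mod_cast hn
    linarith
  have hRc : ∀ a b, Rcf A θ b a x = lamf A θ x * Pff A b a x + ∑ d, Ef A θ b d a d x := by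
    intro a b
    have e1 : ∀ d, Rf A θ b d a d x = Ef A θ b d a d x
        + 1 / ((n : ℝ) - 1) * lamf A θ x
          * (Pff A b a x * Pff A d d x - Pff A b d x * Pff A d a x) := by
      intro d
      simp only [Ef]
      ring
    simp only [Rcf, e1]
    rw [Finset.sum_add_distrib, ← Finset.mul_sum, add_comm]
    congr 1
    have e2 : ∑ d, (Pff A b a x * Pff A d d x - Pff A b d x * Pff A d a x)
        = ((n : ℝ) - 1) * Pff A b a x := by
      have e3 : ∑ d, Pff A d d x = (n : ℝ) := by
        simp only [Pff, if_true]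
        rw [Finset.sum_sub_distrib, hN]
        simp
      have e4 : ∑ d, Pff A b d x * Pff A d a x = Pff A b a x := by
        have e5 : ∀ d, Pff A b d x * Pff A d a x
            = (if b = d then (if d = a then (1:ℝ) else 0) else 0)
              - (if b = d then nfc A d x * nfc A a x else 0)
              - (if d = a then nfc A b x * nfc A d x else 0)
              + nfc A b x * nfc A a x * (nfc A d x * nfc A d x) := by
          intro d
          simp only [Pff]
          split_ifs <;> ring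
        simp only [e5]
        rw [Finset.sum_add_distrib, Finset.sum_sub_distrib, Finset.sum_sub_distrib,
          ← Finset.mul_sum, hN]
        simp only [Finset.sum_ite_eq, Finset.sum_ite_eq', Finset.mem_univ, if_true, Pff]
        ring
      rw [Finset.sum_sub_distrib, ← Finset.mul_sum, e3, e4]
      ring
    rw [e2]
    field_simp
  have hP : ∑ a, ∑ b, w a * w b * Pff A b a x = ∑ a, w a ^ 2 := by
    have e1 : ∀ a b, w a * w b * Pff A b a x
        = (if b = a then w a * w b else 0) - (nfc A a x * w a) * (nfc A b x * w b) := by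
      intro a b
      simp only [Pff]
      split_ifs <;> ring
    simp only [e1, Finset.sum_sub_distrib]
    have e2 : ∀ a, ∑ b, (nfc A a x * w a) * (nfc A b x * w b) = 0 := by
      intro a
      rw [← Finset.mul_sum, hNw, mul_zero]
    simp only [e2]
    simp [sq]
  simp only [hRc]
  have e9 : ∀ a b, w a * w b * (lamf A θ x * Pff A b a x + ∑ d, Ef A θ b d a d x)
      = lamf A θ x * (w a * w b * Pff A b a x) + ∑ d, w a * w b * Ef A θ b d a d x := by
    intro a b
    rw [mul_add, Finset.mul_sum]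
    ring
  simp only [e9, Finset.sum_add_distrib, ← Finset.mul_sum]
  rw [hP]

/-- the error term -/
lemma err {m : ℕ} (w : Fin m → ℝ) (E : Fin m → Fin m → Fin m → ℝ) (ε : ℝ)
    (hE : ∀ a b d, |E a b d| ≤ ε) :
    |∑ a, ∑ b, ∑ d, w a * w b * E a b d| ≤ (m : ℝ) ^ 2 * ε * ∑ a, w a ^ 2 := by
  have h1 : |∑ a, ∑ b, ∑ d, w a * w b * E a b d| ≤ ∑ a : Fin m, ∑ b : Fin m, ∑ _d : Fin m,
      ((w a ^ 2 + w b ^ 2) / 2 * ε) := by
    refine (Finset.abs_sum_le_sum_abs _ _).trans (Finset.sum_le_sum fun a _ => ?_)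
    refine (Finset.abs_sum_le_sum_abs _ _).trans (Finset.sum_le_sum fun b _ => ?_)
    refine (Finset.abs_sum_le_sum_abs _ _).trans (Finset.sum_le_sum fun d _ => ?_)
    rw [abs_mul]
    have h2 : |w a * w b| ≤ (w a ^ 2 + w b ^ 2) / 2 := by
      rw [abs_le]
      constructor <;> nlinarith [sq_nonneg (w a + w b), sq_nonneg (w a - w b)]
    exact mul_le_mul h2 (hE a b d) (abs_nonneg _) (by positivity)
  refine h1.trans (le_of_eq ?_)
  simp only [Finset.sum_const, Finset.card_univ, Fintype.card_fin, nsmul_eq_mul, add_div, add_mul,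
    mul_add, Finset.sum_add_distrib, ← Finset.mul_sum, ← Finset.sum_mul]
  ring_nf
  simp only [← Finset.sum_mul]
  ring

lemma ipsq {n : ℕ} (θ : MF n) (x : EE n) (v : Fin (n + 1) → ℝ) :
    ip (gOf θ) x v v = ∑ a, (∑ i, θ x i a * v i) ^ 2 := by
  simp only [ip, gOf, Matrix.mul_apply, Matrix.transpose_apply]
  have h1 : ∀ a, (∑ i, θ x i a * v i) ^ 2 = ∑ i, ∑ j, θ x i a * θ x j a * v i * v j := by
    intro a
    rw [sq, Finset.sum_mul_sum]
    refine Finset.sum_congr rfl fun i _ => Finset.sum_congr rfl fun j _ => ?_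
    ring
  simp only [h1]
  conv_rhs => rw [Finset.sum_comm]
  refine Finset.sum_congr rfl fun i _ => ?_
  conv_rhs => rw [Finset.sum_comm]
  refine Finset.sum_congr rfl fun j _ => ?_
  rw [Finset.sum_mul, Finset.sum_mul]

theorem veqn (hD : DETn2) : VEQn := by
  intro n C σ hn hC hσ hσ1
  set K : ℝ := C * (2 + 2 * ((n : ℝ) + 1) ^ 2) with hK
  have hK0 : 0 ≤ K := by positivity
  refine ⟨Real.exp (2 * K / σ), Real.one_le_exp (by positivity), ?_⟩
  intro T τ A θ hF hL t ht1 ht2 x hx
  obtain ⟨hτ, hτT⟩ := hL.pos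
  have hI : ∀ s, τ ≤ s → s < T → s ∈ Ico (0:ℝ) T := fun s h1 h2 => ⟨by linarith, h2⟩
  have hN : ∀ s, τ ≤ s → s < T → Ico (0:ℝ) T ∈ nhds s :=
    fun s h1 h2 => Ico_mem_nhds (by linarith) h2
  have hz : ∀ s, s < T → 0 ≤ (2 * (T - s) / τ) ^ (σ / 2) := by
    intro s h2
    have : 0 < T - s := by linarith
    exact Real.rpow_nonneg (by positivity) _
  have hn0 : (0:ℝ) ≤ n := Nat.cast_nonneg n
  constructor
  · -- volume density
    refine (ode hτ hL.len.2 hσ hK0
      (fun s => Real.sqrt (gOf (θ s) x).det / Real.sqrt (T - s) ^ n)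
      (fun s => (-(n:ℝ) * lamf (A s) (θ s) x + n / (2 * (T - s)))
        * (Real.sqrt (gOf (θ s) x).det / Real.sqrt (T - s) ^ n)) ?_ ?_ ?_ t ht1 ht2).1
    · intro s _ _
      positivity
    · intro s h1 h2
      have hd := ((hD n (Ico 0 T) A θ (by omega) hF s (hI s h1 h2) x hx).2).hasDerivAt
        (hN s h1 h2)
      have hp : 0 < T - s := by linarith
      have hsq : Real.sqrt (T - s) ^ n ≠ 0 := pow_ne_zero _ (Real.sqrt_pos.2 hp).ne'
      have hq := hd.div (dsq n (by omega) h2) hsq
      refine hq.congr_deriv ?_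
      field_simp
      ring
    · intro s h1 h2
      have hp : 0 < T - s := by linarith
      have ha := (hL.aft s h1 h2 x hx).1
      have hφ : 0 ≤ Real.sqrt (gOf (θ s) x).det / Real.sqrt (T - s) ^ n := by positivity
      rw [abs_mul, abs_of_nonneg hφ]
      refine mul_le_mul_of_nonneg_right ?_ hφ
      have e1 : -(n:ℝ) * lamf (A s) (θ s) x + n / (2 * (T - s))
          = -(n:ℝ) * (lamf (A s) (θ s) x - 1 / (2 * (T - s))) := by ring
      rw [e1, abs_mul, abs_neg, abs_of_nonneg hn0]
      refine (mul_le_mul_of_nonneg_left ha hn0).trans ?_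
      have hw : 0 ≤ C * (2 * (T - s) / τ) ^ (σ / 2) / (T - s) := by
        have := hz s h2
        positivity
      have e2 : K * (2 * (T - s) / τ) ^ (σ / 2) / (T - s)
          = (2 + 2 * ((n : ℝ) + 1) ^ 2) * (C * (2 * (T - s) / τ) ^ (σ / 2) / (T - s)) := by
        rw [hK]; ring
      rw [e2]
      refine mul_le_mul_of_nonneg_right ?_ hw
      nlinarith
  · intro v hv
    have key := ode hτ hL.len.2 hσ hK0
      (fun s => ip (gOf (θ s)) x v v / (T - s))
      (fun s => -2 * ((lamf (A s) (θ s) x - 1 / (2 * (T - s))) * (ip (gOf (θ s)) x v v / (T - s)))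
        - 2 * ((∑ a, ∑ b, ∑ d, (∑ i, θ s x i a * v i) * (∑ i, θ s x i b * v i)
          * Ef (A s) (θ s) b d a d x) / (T - s))) ?_ ?_ ?_ t ht1 ht2
    · exact ⟨key.2, key.1⟩
    · intro s h1 h2
      have hp : 0 < T - s := by linarith
      rw [ipsq]
      positivity
    · intro s h1 h2
      have hp : 0 < T - s := by linarith
      have hwd : ∀ a, HasDerivAt (fun s => ∑ i, θ s x i a * v i)
          (-∑ b, (∑ i, θ s x i b * v i) * Rcf (A s) (θ s) b a x) s := by
        intro a
        have h3 : ∀ i ∈ (Finset.univ : Finset (Fin (n + 1))), HasDerivAt (fun s => θ s x i a * v i)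
            ((-∑ b, θ s x i b * Rcf (A s) (θ s) b a x) * v i) s := by
          intro i _
          have h4 := ((hF.flt i a).der [] x hx s (hI s h1 h2)).hasDerivAt (hN s h1 h2)
          exact h4.mul_const (v i)
        refine (HasDerivAt.fun_sum h3).congr_deriv ?_
        rw [← Finset.sum_neg_distrib]
        simp only [neg_mul, Finset.sum_mul]
        rw [Finset.sum_neg_distrib, Finset.sum_neg_distrib, Finset.sum_comm]
        congr 1
        refine Finset.sum_congr rfl fun b _ => Finset.sum_congr rfl fun i _ => ?_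
        ring
      have hW : HasDerivAt (fun s => ip (gOf (θ s)) x v v)
          (-2 * (lamf (A s) (θ s) x * ip (gOf (θ s)) x v v
            + ∑ a, ∑ b, ∑ d, (∑ i, θ s x i a * v i) * (∑ i, θ s x i b * v i)
          * Ef (A s) (θ s) b d a d x)) s := by
        have h5 : (fun s => ip (gOf (θ s)) x v v) = fun s => ∑ a, (∑ i, θ s x i a * v i) ^ 2 := by
          funext s
          exact ipsq _ _ _
        rw [h5, ipsq]
        have h6 := HasDerivAt.fun_sum (u := (Finset.univ : Finset (Fin (n + 1))))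
          (fun a _ => (hwd a).pow 2)
        refine h6.congr_deriv ?_
        rw [← ptalg hn (A s) (θ s) x hx (hF.inv s (hI s h1 h2) x) (hF.nA s (hI s h1 h2) x) v hv _
          rfl, Finset.mul_sum]
        refine Finset.sum_congr rfl fun a _ => ?_
        have h7 : ∑ b, (∑ i, θ s x i a * v i) * (∑ i, θ s x i b * v i) * Rcf (A s) (θ s) b a x
            = (∑ i, θ s x i a * v i) * ∑ b, (∑ i, θ s x i b * v i) * Rcf (A s) (θ s) b a x := by
          rw [Finset.mul_sum]
          refine Finset.sum_congr rfl fun b _ => ?_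
          ring
        rw [h7]
        simp only [Nat.cast_ofNat, Nat.add_one_sub_one, pow_one]
        ring
      have h8 : HasDerivAt (fun s => T - s) (0 - 1) s :=
        (hasDerivAt_const s T).sub (hasDerivAt_id s)
      refine (hW.div h8 hp.ne').congr_deriv ?_
      field_simp
      ring
    · intro s h1 h2
      have hp : 0 < T - s := by linarith
      have ha := (hL.aft s h1 h2 x hx).1
      have hE := (hL.aft s h1 h2 x hx).2
      set ε : ℝ := C * (2 * (T - s) / τ) ^ (σ / 2) / (T - s) with hε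
      have hW0 : 0 ≤ ip (gOf (θ s)) x v v := by
        rw [ipsq]
        positivity
      have hW1 : 0 ≤ ip (gOf (θ s)) x v v / (T - s) := by positivity
      have h9 := err (fun a => ∑ i, θ s x i a * v i)
        (fun a b d => Ef (A s) (θ s) b d a d x) ε (fun a b d => hE b d a d)
      rw [← ipsq] at h9
      have e2 : K * (2 * (T - s) / τ) ^ (σ / 2) / (T - s) * (ip (gOf (θ s)) x v v / (T - s))
          = 2 * (ε * (ip (gOf (θ s)) x v v / (T - s)))
            + 2 * (((n + 1 : ℕ) : ℝ) ^ 2 * ε * ip (gOf (θ s)) x v v / (T - s)) := by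
        rw [hK, hε]; push_cast; ring
      rw [e2]
      refine (abs_sub _ _).trans (add_le_add ?_ ?_)
      · rw [abs_mul, abs_mul, abs_of_nonneg hW1]
        rw [show |(-2:ℝ)| = 2 by norm_num]
        exact mul_le_mul_of_nonneg_left (mul_le_mul_of_nonneg_right ha hW1) (by norm_num)
      · rw [abs_mul, abs_div, abs_of_pos hp]
        rw [show |(2:ℝ)| = 2 by norm_num]
        exact mul_le_mul_of_nonneg_left (div_le_div_of_nonneg_right h9 hp.le) (by norm_num)

end Pool.Agent.Helper20.RFn
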